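import Pool.Agent.R803.CM2

/-! # MP_ef6a16_nt: over CM fields small solutions of Fermat's equation are real -/

set_option autoImplicit false

namespace Pool.Agent.Results.MP_ef6a16_nt.CMReduction

open NumberField Pool.Agent.R803.CM

theorem result (K : Type) [Field K] [NumberField K] [IsCMField K] (k : ℕ)
    (htor : Units.torsionOrder K = 2 ^ k) :
    -- (A) a solution is exponentially large or comes from the maximal real subfield
    (∀ n : ℕ, 2 ≤ n → (∀ p : ℕ, p.Prime → p ∣ n → 5 ≤ p ∧ 2 * Module.finrank ℚ K ≤ p) →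
      ∀ a b c : K, a ≠ 0 → b ≠ 0 → c ≠ 0 → a ^ n + b ^ n + c ^ n = 0 →
        (2 : ℝ) ^ n ≤ 2 ^ Module.finrank ℚ K * Height.mulHeight ![a, b, c] ∨
        ∃ t : K, t ≠ 0 ∧ ∃ a' b' c' : maximalRealSubfield K, a' ≠ 0 ∧ b' ≠ 0 ∧ c' ≠ 0 ∧
          a' ^ n + b' ^ n + c' ^ n = 0 ∧
          a = t * (a' : K) ∧ b = t * (b' : K) ∧ c = t * (c' : K)) ∧
    -- (B) all solutions are of size at least `(p / 3) ^ d`
    (∀ p : ℕ, p.Prime → 4 * Module.finrank ℚ K ^ 2 ≤ p → ¬ (p : ℤ) ∣ discr K →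
      ∀ a b c : K, a ≠ 0 → b ≠ 0 → c ≠ 0 → a ^ p + b ^ p + c ^ p = 0 →
        ((p : ℝ) / 3) ^ Module.finrank ℚ K ≤ Height.mulHeight ![a, b, c]) := by
  refine ⟨fun n hn hp a b c ha hb hc h => ?_, fun p hp hpd hd a b c ha hb hc h =>
    mainB htor hp hpd hd ha hb hc h⟩
  rcases main htor hn hp ha hb hc h with h1 | ⟨t, ht, a', b', c', h1, h2, h3⟩
  · exact Or.inl h1
  · obtain ⟨g1, g2, g3, g4⟩ := real_solution ht a' b' c' ha hb hc h h1 h2 h3
    exact Or.inr ⟨t, ht, a', b', c', g1, g2, g3, g4, h1, h2, h3⟩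

end Pool.Agent.Results.MP_ef6a16_nt.CMReduction
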