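import Pool.Agent.R790.AF_SCH
import Pool.Agent.R92.AF_ZER
import Pool.Agent.R657.AF_EXPR
import Pool.Agent.R392.AF_ROU
import Pool.Agent.R456.AF_NUM
import Pool.Agent.R738.AF_LIO2
import Pool.Agent.R398.AF_BK2
import Pool.Agent.R281.AF_NRM

/-!
# Fermat's equation over number fields: the norms of the three numbers are almost maximal

For every `d` there are `C` and `B` such that for every number field `K` of degree `d`, every prime
`p > B` and all nonzero algebraic integers `a`, `b`, `c` of `K` with `a ^ p + b ^ p + c ^ p = 0` the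
product `P` over the embeddings `σ` of `max (|σ a|, |σ b|, |σ c|)` satisfies
`P ≤ e ^ 2 |N c| ^ (1 + C (log p) ^ 2 / p)`; trivially `|N c| ≤ P`. By symmetry the same holds for `a`
and `b`. So at no infinite place one of the three numbers is much smaller than the two others,
except by a factor `P ^ (O ((log p) ^ 2 / p))`.

Proof. If `|σ c|` is small compared with `|σ a|`, then `(-b / a) ^ p` is close to one at `σ`. A lower
bound for `|(-b / a) ^ p - 1|`, linear in the height and quadratic in `log p`, is proved with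
interpolation determinants with the entries `choose(t, j) (a + b) a ^ i (-b) ^ l`.
-/

set_option autoImplicit false

namespace Pool.Agent.Results.MP_ef6a16_nt.NormsAlmostMaximal

open NumberField Pool.Agent.R623.AF

theorem result (d : ℕ) : ∃ (C : ℝ) (B : ℕ), 0 < C ∧ ∀ (K : Type) [Field K] [NumberField K],
    Module.finrank ℚ K = d → ∀ p : ℕ, p.Prime → B < p → ∀ a b c : K, IsIntegral ℤ a →
    IsIntegral ℤ b → IsIntegral ℤ c → a ≠ 0 → b ≠ 0 → c ≠ 0 → a ^ p + b ^ p + c ^ p = 0 →
    ∏ σ : K →+* ℂ, max ‖σ a‖ (max ‖σ b‖ ‖σ c‖) ≤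
      Real.exp 2 * (∏ σ : K →+* ℂ, ‖σ c‖) ^ (1 + C * Real.log p ^ 2 / p) :=
  NRM (BK2 SCH ZER EXPR ROU LIO2 NUM) d

end Pool.Agent.Results.MP_ef6a16_nt.NormsAlmostMaximal
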