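import Pool.Agent.R803.TA3

/-! # MP_ef6a16_nt: two-adic lower bounds for the heights of solutions of Fermat's equation -/

set_option autoImplicit false

namespace Pool.Agent.Results.MP_ef6a16_nt.TwoAdicHeight

open NumberField IsDedekindDomain Pool.Agent.R803.TA

theorem result :
    -- (A) `r` primes of norm two: a bound for all odd exponents, uniform in the field
    (∀ (K : Type) [Field K] [NumberField K] (S : Finset (HeightOneSpectrum (𝓞 K))),
      (∀ P ∈ S, Ideal.absNorm P.asIdeal = 2) →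
      ∀ n : ℕ, Odd n → ∀ a b c : K, a ≠ 0 → b ≠ 0 → c ≠ 0 → a ^ n + b ^ n + c ^ n = 0 →
        (2 : ℝ) ^ (n * ((S.card + 2) / 3)) ≤
          2 ^ Module.finrank ℚ K * Height.mulHeight ![a, b, c] ∧
        (2 : ℝ) ^ ((n : ℝ) * S.card / (3 * Module.finrank ℚ K) - 1) ≤
          Height.mulHeight ![a, b, c] ^ (1 / (Module.finrank ℚ K : ℝ))) ∧
    -- (B) a criterion with units modulo two
    (∀ (K : Type) [Field K] [NumberField K], UnitsOdd K →
      ∀ n : ℕ, 2 ≤ n → (∀ p : ℕ, p.Prime → p ∣ n → 5 ≤ p ∧ 2 * Module.finrank ℚ K ≤ p) →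
      ∀ a b c : K, a ≠ 0 → b ≠ 0 → c ≠ 0 → a ^ n + b ^ n + c ^ n = 0 →
        (2 : ℝ) ^ n ≤ 2 ^ Module.finrank ℚ K * Height.mulHeight ![a, b, c]) ∧
    -- (C) for instance if all units are `1` modulo some prime above two
    (∀ (K : Type) [Field K] [NumberField K] (q : Ideal (𝓞 K)), q.IsPrime → (2 : 𝓞 K) ∈ q →
      (∀ x : (𝓞 K)ˣ, (x : 𝓞 K) - 1 ∈ q) → UnitsOdd K) ∧
    -- (D) for CM fields it suffices to know the units of the maximal real subfield
    (∀ (K : Type) [Field K] [NumberField K] [IsCMField K] (k : ℕ),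
      Units.torsionOrder K = 2 ^ k → UnitsOdd (maximalRealSubfield K) →
      ∀ n : ℕ, 2 ≤ n → (∀ p : ℕ, p.Prime → p ∣ n → 5 ≤ p ∧ 2 * Module.finrank ℚ K ≤ p) →
      ∀ a b c : K, a ≠ 0 → b ≠ 0 → c ≠ 0 → a ^ n + b ^ n + c ^ n = 0 →
        (2 : ℝ) ^ n ≤ 2 ^ Module.finrank ℚ K * Height.mulHeight ![a, b, c]) :=
  ⟨fun K _ _ S hS n hn a b c ha hb hc h =>
      ⟨main_primes hn ha hb hc h S hS, main_abs hn ha hb hc h S hS⟩,
    fun K _ _ hU n hn hp a b c ha hb hc h => main_units hU hn hp ha hb hc h,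
    fun K _ _ q hq h2 hu => unitsOdd_of_prime q hq h2 hu,
    fun K _ _ _ k htor hU n hn hp a b c ha hb hc h => main_cm htor hU hn hp ha hb hc h⟩

end Pool.Agent.Results.MP_ef6a16_nt.TwoAdicHeight
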