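import Pool.Agent.R623.AF.Fin

/-!
# Fermat's equation over all number fields of given degree: no smooth solutions

Let `d ≥ 1`. There is a constant `B = B(d)` such that for every number field `K` of degree `d` which
does not contain a primitive cube root of unity, and for every prime `p > B`, every solution of
`a ^ p + b ^ p + c ^ p = 0` in nonzero elements of `K` has the following property: there is a prime `v`
of `K` with norm `≡ 1 (mod p)` at which `a` and `b` have the same valuation, `c` has a larger one, and
`(a + b) / c` has a pole. In particular no multiple `e (a + b) / c`, `e` a positive integer composed of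
`p` and of primes at most `p ^ (1 / d)`, is integral. By symmetry the same holds with `a`, `b`, `c`
permuted.

Proof. Put `x = -a / c`, `y = -b / c`. If `s = x + y` has no pole at the primes with norm `≡ 1 (mod p)`
it is integral and all `s x ^ i y ^ j`, `i + j ≤ p - 1 - d`, are integral. At an infinite place at
which `x` or `y` is large, `(-y / x) ^ p` is very close to one. A lower bound for
`|(-y / x) ^ p - 1|`, linear in the height and quadratic in `log p` (interpolation determinants in the
style of Laurent, with the matrix entries `choose(t, j) s x ^ i y ^ l`), bounds `p`. The remaining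
bounded solutions are integral, and the theorem of Kronecker together with a finiteness
argument bounds `p` in terms of `d`.
-/

set_option autoImplicit false

namespace Pool.Agent.Results.MP_ef6a16_nt.UniformDenominators

open NumberField IsDedekindDomain

theorem result (d : ℕ) : ∃ B : ℕ, ∀ (K : Type) [Field K] [NumberField K],
    Module.finrank ℚ K = d → (∀ z : K, z ^ 2 + z + 1 ≠ 0) → ∀ p : ℕ, p.Prime → B < p →
    ∀ a b c : K, a ≠ 0 → b ≠ 0 → c ≠ 0 → a ^ p + b ^ p + c ^ p = 0 →
    (∃ v : HeightOneSpectrum (𝓞 K), Ideal.absNorm v.asIdeal ≡ 1 [MOD p] ∧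
      1 < v.valuation K ((a + b) / c) ∧ v.valuation K a = v.valuation K b ∧
      v.valuation K c < v.valuation K a) ∧
    (∀ e : ℕ, 0 < e → (∀ l : ℕ, l.Prime → l ∣ e → l ^ d ≤ p ∨ l = p) →
      ¬ IsIntegral ℤ ((e : K) * ((a + b) / c))) := by
  obtain ⟨B, hB⟩ := Pool.Agent.R623.AF.exists_prime d
  refine ⟨B, ?_⟩
  intro K _ _ hd hK p hp hBp a b c ha hb hc h
  obtain ⟨v, h1, h2, h3, h4, h5⟩ := hB K hd hK p hp hBp a b c ha hb hc h
  refine ⟨⟨v, h1, h3, h4, h5⟩, fun e he0 he => ?_⟩
  exact Pool.Agent.R623.AF.no_smooth v h1 h2 hp h3 e he0 (by rw [hd]; exact he)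

end Pool.Agent.Results.MP_ef6a16_nt.UniformDenominators
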